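import Mathlib

/-!
# The combinatorial core: left and right trapezoids

A left array has columns `x 0, ..., x k`, the column `x r` having `L + k - r` entries.
A right array has diagonals `y 0, ..., y k`, the diagonal `y r` having `L + k - r` entries.
-/

set_option autoImplicit false

namespace Pool.Agent.R103.GogCore

/-- two dimensional arrays of integers -/
abbrev Arr := ℕ → ℕ → ℤ

/-- drop the first column -/
def sh (x : Arr) : Arr := fun r => x (r + 1)

/-- add a first column -/
def cons (u : ℕ → ℤ) (x : Arr) : Arr := fun r => match r with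
  | 0 => u
  | r + 1 => x r

@[simp] theorem sh_cons (u : ℕ → ℤ) (x : Arr) : sh (cons u x) = x := rfl
@[simp] theorem cons_zero (u : ℕ → ℤ) (x : Arr) : cons u x 0 = u := rfl
@[simp] theorem cons_succ (u : ℕ → ℤ) (x : Arr) (r : ℕ) : cons u x (r + 1) = x r := rfl

theorem eq_cons (x : Arr) : x = cons (x 0) (sh x) := by
  funext r
  cases r <;> rfl

/-- a weakly decreasing row of `n` positive integers, zero afterwards -/
structure Row (n : ℕ) (u : ℕ → ℤ) : Prop where
  pos : ∀ b, b < n → 1 ≤ u b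
  dec : ∀ b, b + 1 < n → u (b + 1) ≤ u b
  zero : ∀ b, n ≤ b → u b = 0

/-- the last passage step -/
def stepF (n : ℕ) (u g : ℕ → ℤ) : ℕ → ℤ := fun b =>
  if b = 0 then g 0
  else if b < n then max (g b) (g (b - 1) + u b - u (b - 1))
  else if b = n then g (b - 1) + u b - u (b - 1)
  else 0

/-- the complementary step -/
def stepH (n : ℕ) (u g : ℕ → ℤ) : ℕ → ℤ := fun b =>
  if b < n then u b + stepF n u g (b + 1) - g b else 0

theorem stepF_zero (n : ℕ) (u g : ℕ → ℤ) : stepF n u g 0 = g 0 := rfl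

theorem stepF_mid {n b : ℕ} (u g : ℕ → ℤ) (hb : b + 1 < n) :
    stepF n u g (b + 1) = max (g (b + 1)) (g b + u (b + 1) - u b) := by
  simp [stepF, hb]

theorem stepF_last {n b : ℕ} (u g : ℕ → ℤ) (hb : b + 1 = n) :
    stepF n u g (b + 1) = g b + u (b + 1) - u b := by
  subst hb
  simp [stepF]

theorem stepF_out {n b : ℕ} (u g : ℕ → ℤ) (hn : 0 < n) (hb : n < b) : stepF n u g b = 0 := by
  unfold stepF
  rw [if_neg (by omega), if_neg (by omega), if_neg (by omega)]

theorem stepF_row {n : ℕ} {u g : ℕ → ℤ} (hn : 0 < n) (hu : Row (n + 1) u) (hg : Row n g)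
    (hug : ∀ b, b < n → u b ≤ g b) : Row (n + 1) (stepF n u g) ∧
      (∀ b, b < n → g b ≤ stepF n u g b) := by
  have key : ∀ b, b < n → g b ≤ stepF n u g b := by
    intro b hb
    rcases b with _ | b
    · rw [stepF_zero]
    · rw [stepF_mid _ _ hb]
      exact le_max_left _ _
  refine ⟨⟨?_, ?_, ?_⟩, key⟩
  · intro b hb
    rcases lt_or_eq_of_le (Nat.lt_succ_iff.mp hb) with h | h
    · exact le_trans (hg.pos b h) (key b h)
    · obtain ⟨c, rfl⟩ : ∃ c, b = c + 1 := ⟨b - 1, by omega⟩
      rw [stepF_last _ _ h]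
      have h1 := hug c (by omega)
      have h2 := hu.pos (c + 1) hb
      omega
  · intro b hb
    have h0 := key b (by omega)
    have h1 := hu.dec b hb
    rcases lt_or_eq_of_le (show b + 1 ≤ n by omega) with h | h
    · rw [stepF_mid _ _ h]
      have h2 := hg.dec b h
      omega
    · rw [stepF_last _ _ h]
      omega
  · intro b hb
    exact stepF_out _ _ hn (by omega)

theorem stepH_lt {n b : ℕ} (u g : ℕ → ℤ) (hb : b < n) :
    stepH n u g b = u b + stepF n u g (b + 1) - g b := by
  simp [stepH, hb]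

theorem stepH_row {n : ℕ} {u g : ℕ → ℤ} (hu : Row (n + 1) u) (hg : Row n g)
    (hug : ∀ b, b < n → u b ≤ g b) : Row n (stepH n u g) ∧
      (∀ b, b < n → u (b + 1) ≤ stepH n u g b) ∧
      (∀ b, b < n → stepH n u g b ≤ stepF n u g (b + 1)) ∧
      (∀ b, b < n → stepH n u g b ≤ u b) := by
  have k1 : ∀ b, b < n → u (b + 1) ≤ stepH n u g b := by
    intro b hb
    rw [stepH_lt _ _ hb]
    rcases lt_or_eq_of_le (show b + 1 ≤ n by omega) with h | h
    · rw [stepF_mid _ _ h]; omega
    · rw [stepF_last _ _ h]; omega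
  have k2 : ∀ b, b < n → stepH n u g b ≤ stepF n u g (b + 1) := by
    intro b hb
    rw [stepH_lt _ _ hb]
    have := hug b hb
    omega
  have k3 : ∀ b, b < n → stepH n u g b ≤ u b := by
    intro b hb
    rw [stepH_lt _ _ hb]
    have h1 := hu.dec b (by omega)
    rcases lt_or_eq_of_le (show b + 1 ≤ n by omega) with h | h
    · rw [stepF_mid _ _ h]
      have h2 := hg.dec b h
      omega
    · rw [stepF_last _ _ h]; omega
  refine ⟨⟨?_, ?_, ?_⟩, k1, k2, k3⟩
  · intro b hb
    have h1 := k1 b hb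
    have h2 := hu.pos (b + 1) (by omega)
    omega
  · intro b hb
    have h1 := k3 (b + 1) hb
    have h2 := k1 b (by omega)
    omega
  · intro b hb
    unfold stepH
    rw [if_neg (by omega)]

/-- the inverse step, first part -/
def invG (n : ℕ) (c h : ℕ → ℤ) : ℕ → ℤ := fun b =>
  if b < n then (if b = 0 then c 0 else min (c b) (h (b - 1) + c (b + 1) - h b)) else 0

/-- the inverse step, second part -/
def invU (n : ℕ) (c h : ℕ → ℤ) : ℕ → ℤ := fun b =>
  if b < n then invG n c h b - (c (b + 1) - h b) else if b = n then h (n - 1) else 0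

theorem invG_zero {n : ℕ} (c h : ℕ → ℤ) (hn : 0 < n) : invG n c h 0 = c 0 := by
  simp [invG, hn]

theorem invG_succ {n b : ℕ} (c h : ℕ → ℤ) (hb : b + 1 < n) :
    invG n c h (b + 1) = min (c (b + 1)) (h b + c (b + 1 + 1) - h (b + 1)) := by
  simp [invG, hb]

theorem invU_lt {n b : ℕ} (c h : ℕ → ℤ) (hb : b < n) :
    invU n c h b = invG n c h b - (c (b + 1) - h b) := by
  simp [invU, hb]

theorem invU_last {b : ℕ} (c h : ℕ → ℤ) : invU (b + 1) c h (b + 1) = h b := by
  simp [invU]

theorem invG_le {n b : ℕ} (c h : ℕ → ℤ) (hb : b < n) : invG n c h b ≤ c b := by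
  rcases b with _ | b
  · rw [invG_zero _ _ hb]
  · rw [invG_succ _ _ hb]
    exact min_le_left _ _

/-- `u (b+1) ≤ h b` for the inverse step -/
theorem invU_succ_le {n b : ℕ} (c h : ℕ → ℤ) (hb : b < n) : invU n c h (b + 1) ≤ h b := by
  rcases lt_or_eq_of_le (show b + 1 ≤ n by omega) with h1 | h1
  · rw [invU_lt _ _ h1, invG_succ _ _ h1]
    omega
  · subst h1
    rw [invU_last]

theorem inv_rows {n : ℕ} {c h : ℕ → ℤ} (hn : 0 < n) (hc : Row (n + 1) c) (hh : Row n h)
    (hhc : ∀ b, b < n → h b ≤ c (b + 1)) : Row (n + 1) (invU n c h) ∧ Row n (invG n c h) ∧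
      (∀ b, b < n → invU n c h b ≤ invG n c h b) := by
  have hle : ∀ b, b < n → invU n c h b ≤ invG n c h b := by
    intro b hb
    rw [invU_lt _ _ hb]
    have := hhc b hb
    omega
  have hge : ∀ b, b < n → h b ≤ invU n c h b := by
    intro b hb
    rw [invU_lt _ _ hb]
    rcases b with _ | b
    · rw [invG_zero _ _ hn]
      have := hc.dec 0 (by omega)
      omega
    · rw [invG_succ _ _ hb]
      have h1 := hc.dec (b + 1) (by omega)
      have h2 := hh.dec b hb
      omega
  have hdec : ∀ b, b < n → invU n c h (b + 1) ≤ invU n c h b := by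
    intro b hb
    exact le_trans (invU_succ_le c h hb) (hge b hb)
  refine ⟨⟨?_, ?_, ?_⟩, ⟨?_, ?_, ?_⟩, hle⟩
  · intro b hb
    rcases lt_or_eq_of_le (Nat.lt_succ_iff.mp hb) with h1 | h1
    · exact le_trans (hh.pos b h1) (hge b h1)
    · obtain ⟨m, rfl⟩ : ∃ m, n = m + 1 := ⟨n - 1, by omega⟩
      subst h1
      rw [invU_last]
      exact hh.pos m (by omega)
  · intro b hb
    exact hdec b (by omega)
  · intro b hb
    unfold invU
    rw [if_neg (by omega), if_neg (by omega)]
  · intro b hb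
    exact le_trans (le_trans (hh.pos b hb) (hge b hb)) (hle b hb)
  · intro b hb
    have h1 := invG_le c h hb
    have h0 : c (b + 1) ≤ invG n c h b := by
      rcases b with _ | b
      · rw [invG_zero _ _ hn]
        exact hc.dec 0 (by omega)
      · rw [invG_succ _ _ (by omega)]
        have h2 := hc.dec (b + 1) (by omega)
        have h3 := hh.dec b (by omega)
        omega
    omega
  · intro b hb
    unfold invG
    rw [if_neg (by omega)]

theorem stepF_inv {n : ℕ} {c h : ℕ → ℤ} (hn : 0 < n) (hc : Row (n + 1) c) :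
    stepF n (invU n c h) (invG n c h) = c := by
  funext b
  rcases b with _ | b
  · rw [stepF_zero, invG_zero _ _ hn]
  · rcases lt_trichotomy (b + 1) n with h1 | h1 | h1
    · rw [stepF_mid _ _ h1, invU_lt _ _ h1, invU_lt _ _ (show b < n by omega), invG_succ _ _ h1]
      omega
    · subst h1
      rw [stepF_last _ _ rfl, invU_last, invU_lt _ _ (show b < b + 1 by omega)]
      omega
    · rw [stepF_out _ _ hn h1, hc.zero _ (by omega)]

theorem stepH_inv {n : ℕ} {c h : ℕ → ℤ} (hn : 0 < n) (hc : Row (n + 1) c) (hh : Row n h) :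
    stepH n (invU n c h) (invG n c h) = h := by
  funext b
  by_cases hb : b < n
  · rw [stepH_lt _ _ hb, stepF_inv hn hc, invU_lt _ _ hb]
    omega
  · unfold stepH
    rw [if_neg hb, hh.zero b (by omega)]

theorem inv_step {n : ℕ} {u g : ℕ → ℤ} (hn : 0 < n) (hu : Row (n + 1) u) (hg : Row n g) :
    invG n (stepF n u g) (stepH n u g) = g ∧ invU n (stepF n u g) (stepH n u g) = u := by
  have hG : invG n (stepF n u g) (stepH n u g) = g := by
    funext b
    by_cases hb : b < n
    · rcases b with _ | b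
      · rw [invG_zero _ _ hn, stepF_zero]
      · rw [invG_succ _ _ hb, stepH_lt _ _ hb, stepH_lt _ _ (show b < n by omega),
          stepF_mid _ _ hb]
        omega
    · unfold invG
      rw [if_neg hb, hg.zero b (by omega)]
  refine ⟨hG, ?_⟩
  funext b
  rcases lt_trichotomy b n with h1 | h1 | h1
  · rw [invU_lt _ _ h1, hG, stepH_lt _ _ h1]
    omega
  · obtain ⟨m, rfl⟩ : ∃ m, n = m + 1 := ⟨n - 1, by omega⟩
    subst h1
    rw [invU_last, stepH_lt _ _ (by omega), stepF_last _ _ rfl]
    omega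
  · unfold invU
    rw [if_neg (by omega), if_neg (by omega), hu.zero b (by omega)]

/-- left arrays -/
def SL : ℕ → ℕ → Arr → Prop
  | 0, L, x => Row L (x 0) ∧ sh x = 0
  | k + 1, L, x => Row (L + k + 1) (x 0) ∧ (∀ b, b < L + k → x 0 b ≤ x 1 b) ∧ SL k L (sh x)

/-- right arrays -/
def SR : ℕ → ℕ → Arr → Prop
  | 0, L, y => Row L (y 0) ∧ sh y = 0
  | k + 1, L, y => Row (L + k + 1) (y 0) ∧ (∀ b, b < L + k → y 1 b ≤ y 0 (b + 1)) ∧ SR k L (sh y)

/-- the last passage times -/
def cc : ℕ → ℕ → Arr → (ℕ → ℤ)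
  | 0, _, x => x 0
  | k + 1, L, x => stepF (L + k) (x 0) (cc k L (sh x))

/-- the reduced array -/
def Phi : ℕ → ℕ → Arr → Arr
  | 0, _, _ => 0
  | k + 1, L, x => cons (stepH (L + k) (x 0) (cc k L (sh x))) (Phi k L (sh x))

theorem SL.col_le {k L : ℕ} {x : Arr} (hL : 0 < L) (h : SL k L x) :
    Row (L + k) (cc k L x) ∧ Row (L + k) (x 0) ∧ ∀ b, b < L + k → x 0 b ≤ cc k L x b := by
  induction k generalizing x with
  | zero => exact ⟨h.1, h.1, fun b _ => le_refl _⟩
  | succ k ih =>
    obtain ⟨h1, h2, h3⟩ := h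
    obtain ⟨i1, i2, i3⟩ := ih h3
    have hug : ∀ b, b < L + k → x 0 b ≤ cc k L (sh x) b := fun b hb =>
      le_trans (h2 b hb) (i3 b hb)
    obtain ⟨j1, j2⟩ := stepF_row (by omega) h1 i1 hug
    refine ⟨j1, h1, ?_⟩
    intro b hb
    rcases lt_or_eq_of_le (show b ≤ L + k by omega) with h4 | h4
    · exact le_trans (hug b h4) (j2 b h4)
    · obtain ⟨m, hm⟩ : ∃ m, b = m + 1 := ⟨b - 1, by omega⟩
      subst hm
      show x 0 (m + 1) ≤ stepF (L + k) (x 0) (cc k L (sh x)) (m + 1)
      rw [stepF_last _ _ h4]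
      have := hug m (by omega)
      omega

/-- the forward map is well defined -/
theorem forward {k L : ℕ} {x : Arr} (hL : 0 < L) (h : SL (k + 1) L x) :
    SL k L (Phi (k + 1) L x) ∧ ∀ b, b < L + k → cc k L (Phi (k + 1) L x) b ≤
      cc (k + 1) L x (b + 1) := by
  induction k generalizing x with
  | zero =>
    obtain ⟨h1, h2, h3⟩ := h
    have hr := h3.1
    obtain ⟨j1, j2, j3, j4⟩ := stepH_row h1 hr h2
    exact ⟨⟨j1, rfl⟩, j3⟩
  | succ k ih =>
    obtain ⟨h1, h2, h3⟩ := h
    obtain ⟨i1, i2⟩ := ih h3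
    obtain ⟨e1, e2, e3⟩ := SL.col_le hL h3
    have hug : ∀ b, b < L + (k + 1) → x 0 b ≤ cc (k + 1) L (sh x) b := fun b hb =>
      le_trans (h2 b hb) (e3 b hb)
    obtain ⟨j1, j2, j3, j4⟩ := stepH_row h1 e1 hug
    obtain ⟨f1, f2, f3⟩ := h3
    obtain ⟨a1, a2, a3⟩ := SL.col_le hL f3
    have hvg : ∀ b, b < L + k → x 1 b ≤ cc k L (sh (sh x)) b := fun b hb =>
      le_trans (f2 b hb) (a3 b hb)
    obtain ⟨b1, b2⟩ := stepF_row (by omega) f1 a1 hvg
    obtain ⟨c1, c2, c3, c4⟩ := stepH_row f1 a1 hvg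
    refine ⟨⟨j1, ?_, i1⟩, ?_⟩
    · intro b hb
      show stepH (L + (k + 1)) (x 0) (cc (k + 1) L (sh x)) b ≤
        stepH (L + k) (x 1) (cc k L (sh (sh x))) b
      rw [stepH_lt _ _ (by omega), stepF_mid _ _ (by omega), stepH_lt _ _ hb]
      have t1 := h2 (b + 1) (by omega)
      have t2 := c2 b hb
      rw [stepH_lt _ _ hb] at t2
      have t3 := h2 b (by omega)
      have t4 := b2 b hb
      set G := cc (k + 1) L (sh x) with hG
      have hG' : stepF (L + k) (sh x 0) (cc k L (sh (sh x))) = G := rfl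
      have hG2 : stepF (L + k) (x 1) (cc k L (sh (sh x))) = G := rfl
      have hx1 : sh x 0 = x 1 := rfl
      rw [hG2]
      have t2' : x 1 (b + 1) ≤ x 1 b + G (b + 1) - cc k L (sh (sh x)) b := t2
      have t4' : cc k L (sh (sh x)) b ≤ G b := t4
      omega
    · intro b hb
      set g := cc (k + 1) L (sh x) with hg
      set H := stepH (L + (k + 1)) (x 0) g with hH
      show stepF (L + k) H (cc k L (Phi (k + 1) L (sh x))) b ≤ stepF (L + (k + 1)) (x 0) g (b + 1)
      obtain ⟨q1, q2⟩ := stepF_row (by omega) h1 e1 hug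
      have hgF : ∀ b, b < L + (k + 1) → g b ≤ stepF (L + (k + 1)) (x 0) g b := q2
      rcases b with _ | b
      · rw [stepF_zero]
        have t1 := i2 0 (by omega)
        have t2 := hgF 1 (by omega)
        exact le_trans t1 t2
      · have t1 := i2 b (by omega)
        have t3 := j2 b (by omega)
        have t4 := hgF (b + 1 + 1)
        have t5 : H (b + 1) = x 0 (b + 1) + stepF (L + (k + 1)) (x 0) g (b + 1 + 1) - g (b + 1) :=
          stepH_lt _ _ (by omega)
        rcases lt_or_eq_of_le (show b + 1 ≤ L + k by omega) with h4 | h4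
        · rw [stepF_mid _ _ h4]
          have t6 := i2 (b + 1) (by omega)
          have t7 := t4 (by omega)
          omega
        · rw [stepF_last _ _ h4]
          omega


/-- surjectivity of the reduction -/
theorem backward {k L : ℕ} (hL : 0 < L) : ∀ {c : ℕ → ℤ} {z : Arr}, Row (L + k + 1) c → SL k L z →
    (∀ b, b < L + k → cc k L z b ≤ c (b + 1)) →
    ∃ x, SL (k + 1) L x ∧ cc (k + 1) L x = c ∧ Phi (k + 1) L x = z := by
  induction k with
  | zero =>
    intro c z hc hz hzc
    obtain ⟨h1, h2, h3⟩ := inv_rows (n := L) hL hc hz.1 hzc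
    refine ⟨cons (invU L c (z 0)) (cons (invG L c (z 0)) 0), ⟨h1, h3, h2, rfl⟩, ?_, ?_⟩
    · exact stepF_inv hL hc
    · rw [eq_cons z, hz.2]
      show cons (stepH L (invU L c (z 0)) (invG L c (z 0))) 0 = cons (z 0) 0
      rw [stepH_inv hL hc hz.1]
  | succ k ih =>
    intro c z hc hz hzc
    have hz' := hz
    obtain ⟨w1, w2, w3⟩ := hz'
    obtain ⟨e1, e2, e3⟩ := SL.col_le hL hz
    have hhc : ∀ b, b < L + (k + 1) → z 0 b ≤ c (b + 1) := fun b hb =>
      le_trans (e3 b hb) (hzc b hb)
    obtain ⟨h1, h2, h3⟩ := inv_rows (n := L + (k + 1)) (by omega) hc w1 hhc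
    have hg' : ∀ b, b < L + k → cc k L (sh z) b ≤ invG (L + (k + 1)) c (z 0) (b + 1) := by
      obtain ⟨a1, a2, a3⟩ := SL.col_le hL w3
      have hug : ∀ b, b < L + k → z 0 b ≤ cc k L (sh z) b := fun b hb =>
        le_trans (w2 b hb) (a3 b hb)
      obtain ⟨b1, b2⟩ := stepF_row (by omega) w1 a1 hug
      intro b hb
      rw [invG_succ _ _ (show b + 1 < L + (k + 1) by omega)]
      have t1 := b2 b hb
      have t2 : stepF (L + k) (z 0) (cc k L (sh z)) b ≤ c (b + 1) := hzc b (by omega)
      have t3 : stepF (L + k) (z 0) (cc k L (sh z)) (b + 1) ≤ c (b + 1 + 1) := hzc (b + 1) (by omega)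
      rcases lt_or_eq_of_le (show b + 1 ≤ L + k by omega) with h4 | h4
      · rw [stepF_mid _ _ h4] at t3
        omega
      · rw [stepF_last _ _ h4] at t3
        omega
    obtain ⟨x, hx1, hx2, hx3⟩ := ih h2 w3 hg'
    have hx0 : Row (L + k + 1) (x 0) := hx1.1
    refine ⟨cons (invU (L + (k + 1)) c (z 0)) x, ⟨h1, ?_, hx1⟩, ?_, ?_⟩
    · -- interlacing of the new column with the next one
      intro b hb
      show invU (L + (k + 1)) c (z 0) b ≤ x 0 b
      obtain ⟨p1, p2, p3⟩ := hx1
      obtain ⟨a1, a2, a3⟩ := SL.col_le hL p3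
      have hug : ∀ b, b < L + k → x 0 b ≤ cc k L (sh x) b := fun b hb =>
        le_trans (p2 b hb) (a3 b hb)
      obtain ⟨b1, b2⟩ := stepF_row (by omega) p1 a1 hug
      have hcx : stepF (L + k) (x 0) (cc k L (sh x)) = invG (L + (k + 1)) c (z 0) := hx2
      have hzx : stepH (L + k) (x 0) (cc k L (sh x)) = z 1 := by
        have := congrFun hx3 0
        exact this
      rw [hcx] at b2 b1
      rw [invU_lt _ _ (show b < L + (k + 1) by omega)]
      rcases lt_or_eq_of_le (show b ≤ L + k by omega) with h4 | h4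
      · have t1 : z 1 b = x 0 b + invG (L + (k + 1)) c (z 0) (b + 1) - cc k L (sh x) b := by
          rw [← hzx, stepH_lt _ _ h4, hcx]
        have t2 := w2 b h4
        have t3 := b2 b h4
        have t4 := invG_le c (z 0) (show b + 1 < L + (k + 1) by omega)
        rcases b with _ | b
        · -- `b = 0`
          have t5 : invG (L + (k + 1)) c (z 0) 0 = cc k L (sh x) 0 := by
            rw [← hcx, stepF_zero]
          omega
        · have t5 : invG (L + (k + 1)) c (z 0) (b + 1) =
              max (cc k L (sh x) (b + 1)) (cc k L (sh x) b + x 0 (b + 1) - x 0 b) := by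
            rw [← hcx, stepF_mid _ _ h4]
          have t6 : z 1 b = x 0 b + invG (L + (k + 1)) c (z 0) (b + 1) - cc k L (sh x) b := by
            rw [← hzx, stepH_lt _ _ (by omega), hcx]
          have t7 := w2 b (by omega)
          have t8 := invU_succ_le c (z 0) (show b < L + (k + 1) by omega)
          rw [invU_lt _ _ (show b + 1 < L + (k + 1) by omega)] at t8
          omega
      · subst h4
        obtain ⟨m, hm⟩ : ∃ m, L + k = m + 1 := ⟨L + k - 1, by omega⟩
        rw [hm]
        have t5 : invG (L + (k + 1)) c (z 0) (m + 1) =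
            cc k L (sh x) m + x 0 (m + 1) - x 0 m := by
          rw [← hcx, stepF_last _ _ hm.symm]
        have t6 : z 1 m = x 0 m + invG (L + (k + 1)) c (z 0) (m + 1) - cc k L (sh x) m := by
          rw [← hzx, stepH_lt _ _ (by omega), hcx]
        have t7 := w2 m (by omega)
        have t8 := invU_succ_le c (z 0) (show m < L + (k + 1) by omega)
        rw [invU_lt _ _ (show m + 1 < L + (k + 1) by omega)] at t8
        omega
    · show stepF (L + (k + 1)) (invU (L + (k + 1)) c (z 0)) (cc (k + 1) L x) = c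
      rw [hx2]
      exact stepF_inv (by omega) hc
    · show cons (stepH (L + (k + 1)) (invU (L + (k + 1)) c (z 0)) (cc (k + 1) L x))
        (Phi (k + 1) L x) = z
      rw [hx2, stepH_inv (by omega) hc w1, hx3]
      exact (eq_cons z).symm

/-- injectivity of the reduction -/
theorem inj {k L : ℕ} (hL : 0 < L) : ∀ {x y : Arr}, SL (k + 1) L x → SL (k + 1) L y →
    cc (k + 1) L x = cc (k + 1) L y → Phi (k + 1) L x = Phi (k + 1) L y → x = y := by
  induction k with
  | zero =>
    intro x y hx hy h1 h2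
    have e : stepH L (x 0) (x 1) = stepH L (y 0) (y 1) := congrFun h2 0
    have f : stepF L (x 0) (x 1) = stepF L (y 0) (y 1) := h1
    obtain ⟨p1, p2, p3, p4⟩ := hx
    obtain ⟨q1, q2, q3, q4⟩ := hy
    obtain ⟨i1, i2⟩ := inv_step hL p1 p3
    obtain ⟨j1, j2⟩ := inv_step hL q1 q3
    have g1 : x 1 = y 1 := by
      have : sh x 0 = sh y 0 := by
        rw [← i1, ← j1]
        show invG L (stepF L (x 0) (x 1)) (stepH L (x 0) (x 1)) = _
        rw [e, f]
        rfl
      exact this
    have g0 : x 0 = y 0 := by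
      rw [← i2, ← j2]
      show invU L (stepF L (x 0) (x 1)) (stepH L (x 0) (x 1)) = _
      rw [e, f]
      rfl
    rw [eq_cons x, eq_cons y, g0, eq_cons (sh x), eq_cons (sh y), p4, q4]
    show cons (y 0) (cons (x 1) 0) = cons (y 0) (cons (y 1) 0)
    rw [g1]
  | succ k ih =>
    intro x y hx hy h1 h2
    have hx' := hx
    have hy' := hy
    obtain ⟨p1, p2, p3⟩ := hx'
    obtain ⟨q1, q2, q3⟩ := hy'
    have e : stepH (L + (k + 1)) (x 0) (cc (k + 1) L (sh x)) =
      stepH (L + (k + 1)) (y 0) (cc (k + 1) L (sh y)) := congrFun h2 0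
    have f : stepF (L + (k + 1)) (x 0) (cc (k + 1) L (sh x)) =
      stepF (L + (k + 1)) (y 0) (cc (k + 1) L (sh y)) := h1
    have t : Phi (k + 1) L (sh x) = Phi (k + 1) L (sh y) := by
      have := congrArg sh h2
      exact this
    obtain ⟨i1, i2⟩ := inv_step (n := L + (k + 1)) (by omega) p1 (SL.col_le hL p3).1
    obtain ⟨j1, j2⟩ := inv_step (n := L + (k + 1)) (by omega) q1 (SL.col_le hL q3).1
    have g1 : cc (k + 1) L (sh x) = cc (k + 1) L (sh y) := by
      rw [← i1, ← j1, e, f]
    have g0 : x 0 = y 0 := by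
      rw [← i2, ← j2, e, f]
    rw [eq_cons x, eq_cons y, g0, ih p3 q3 g1 t]

/-- the bijection between left and right arrays -/
theorem exists_bij (k L : ℕ) (hL : 0 < L) : ∃ φ : Arr → Arr, Set.BijOn φ {x | SL k L x}
    {y | SR k L y} ∧ ∀ x, SL k L x → φ x 0 = cc k L x := by
  induction k with
  | zero =>
    refine ⟨id, ?_, fun x _ => rfl⟩
    exact Set.bijOn_id _
  | succ k ih =>
    obtain ⟨φ, ⟨hφ1, hφ2, hφ3⟩, hφ⟩ := ih
    refine ⟨fun x => cons (cc (k + 1) L x) (φ (Phi (k + 1) L x)), ⟨?_, ?_, ?_⟩, fun x _ => rfl⟩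
    · intro x hx
      obtain ⟨h1, h2⟩ := forward hL hx
      refine ⟨(SL.col_le hL hx).1, ?_, hφ1 h1⟩
      intro b hb
      show φ (Phi (k + 1) L x) 0 b ≤ _
      rw [hφ _ h1]
      exact h2 b hb
    · intro x hx y hy hxy
      have e1 : cc (k + 1) L x = cc (k + 1) L y := congrFun hxy 0
      have e2 : φ (Phi (k + 1) L x) = φ (Phi (k + 1) L y) := congrArg sh hxy
      exact inj hL hx hy e1 (hφ2 (forward hL hx).1 (forward hL hy).1 e2)
    · intro y hy
      obtain ⟨h1, h2, h3⟩ := hy
      obtain ⟨z, hz1, hz2⟩ := hφ3 h3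
      have hz3 : cc k L z = y 1 := by
        rw [← hφ z hz1, hz2]
        rfl
      obtain ⟨x, hx1, hx2, hx3⟩ := backward hL (c := y 0) (z := z) h1 hz1 (by
        intro b hb
        rw [hz3]
        exact h2 b hb)
      refine ⟨x, hx1, ?_⟩
      show cons (cc (k + 1) L x) (φ (Phi (k + 1) L x)) = y
      rw [hx2, hx3, hz2]
      exact (eq_cons y).symm

end Pool.Agent.R103.GogCore
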