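import Mathlib

/-!
# Gog, Magog and GOGAm triangles and their trapezoids
-/

set_option autoImplicit false

namespace Pool.Agent.R103.Gog

/-- `X` is a Gelfand-Tsetlin triangle of size `n`: only the entries `X i j` with
`1 ≤ j ≤ i ≤ n` matter -/
structure IsGT (n : ℕ) (X : ℕ → ℕ → ℤ) : Prop where
  pos : ∀ i j, 1 ≤ j → j ≤ i → i ≤ n → 1 ≤ X i j
  low : ∀ i j, 1 ≤ j → j ≤ i → i + 1 ≤ n → X (i + 1) j ≤ X i j
  upp : ∀ i j, 1 ≤ j → j ≤ i → i + 1 ≤ n → X i j ≤ X (i + 1) (j + 1)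

/-- Magog triangles -/
def IsMagog (n : ℕ) (X : ℕ → ℕ → ℤ) : Prop :=
  IsGT n X ∧ ∀ j : ℕ, 1 ≤ j → j ≤ n → X j j ≤ j

/-- Gog triangles -/
def IsGog (n : ℕ) (X : ℕ → ℕ → ℤ) : Prop :=
  IsGT n X ∧ (∀ i j : ℕ, 1 ≤ j → j + 1 ≤ i → i ≤ n → X i j < X i (j + 1)) ∧
    ∀ j : ℕ, 1 ≤ j → j ≤ n → X n j = j

/-- the map `s_m` of the problem: it changes only row `m` -/
def toggle (m : ℕ) (X : ℕ → ℕ → ℤ) : ℕ → ℕ → ℤ := fun i j =>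
  if i = m ∧ 1 ≤ j ∧ j ≤ m then
    (if j = 1 then X (m + 1) j else max (X (m + 1) j) (X (m - 1) (j - 1))) +
      (if j = m then X (m + 1) (j + 1) else min (X (m + 1) (j + 1)) (X (m - 1) j)) - X m j
  else X i j

/-- `omega j = s_j s_(j-1) ... s_1` (the map `s_1` is applied first) -/
def omega : ℕ → (ℕ → ℕ → ℤ) → (ℕ → ℕ → ℤ)
  | 0, X => X
  | j + 1, X => toggle (j + 1) (omega j X)

/-- `omegas t = omega 1 ∘ omega 2 ∘ ... ∘ omega t` (the map `omega t` is applied first) -/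
def omegas : ℕ → (ℕ → ℕ → ℤ) → (ℕ → ℕ → ℤ)
  | 0, X => X
  | t + 1, X => omegas t (omega (t + 1) X)

/-- the Schutzenberger involution on triangles of size `n` -/
def schutz (n : ℕ) (X : ℕ → ℕ → ℤ) : ℕ → ℕ → ℤ := omegas (n - 1) X

/-- GOGAm triangles -/
def IsGOGAm (n : ℕ) (X : ℕ → ℕ → ℤ) : Prop := IsGT n X ∧ IsMagog n (schutz n X)

/-- indices of `(n, k)` left trapezoids -/
abbrev LeftIdx (n k : ℕ) : Type :=
  {p : ℕ × ℕ // 1 ≤ p.2 ∧ p.2 ≤ p.1 ∧ p.1 ≤ n ∧ p.2 ≤ k}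

/-- indices of `(n, k)` right trapezoids: `i - j ≤ k - 1` -/
abbrev RightIdx (n k : ℕ) : Type :=
  {p : ℕ × ℕ // 1 ≤ p.2 ∧ p.2 ≤ p.1 ∧ p.1 ≤ n ∧ p.1 + 1 ≤ p.2 + k}

/-- the `(n, k)` left trapezoids of a class `C` of triangles -/
def leftTrapezoids (n k : ℕ) (C : (ℕ → ℕ → ℤ) → Prop) : Set (LeftIdx n k → ℤ) :=
  {f | ∃ X, C X ∧ ∀ p : LeftIdx n k, f p = X p.1.1 p.1.2}

/-- the `(n, k)` right trapezoids of a class `C` of triangles -/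
def rightTrapezoids (n k : ℕ) (C : (ℕ → ℕ → ℤ) → Prop) : Set (RightIdx n k → ℤ) :=
  {f | ∃ X, C X ∧ ∀ p : RightIdx n k, f p = X p.1.1 p.1.2}

end Pool.Agent.R103.Gog
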