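import Pool.Agent.R103.GogS

/-!
# Left GOGAm trapezoids and right Magog trapezoids are equinumerous
-/

set_option autoImplicit false

namespace Pool.Agent.R103.Gog

open Pool.Agent.R103.GogCore

theorem toggle_GT {n m : ℕ} {X : ℕ → ℕ → ℤ} (h : IsGT n X) (h1 : 1 ≤ m) (h2 : m + 1 ≤ n) :
    IsGT n (toggle m X) := by
  have hrow : ∀ j, 1 ≤ j → j ≤ m → X (m + 1) j ≤ toggle m X m j ∧ toggle m X m j ≤ X (m + 1) (j + 1) ∧
      (j < m → toggle m X m j ≤ X (m - 1) j) ∧ (1 < j → X (m - 1) (j - 1) ≤ toggle m X m j) := by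
    intro j hj1 hj2
    have a1 := h.low m j hj1 hj2 h2
    have a2 := h.upp m j hj1 hj2 h2
    have e : toggle m X m j = (if j = 1 then X (m + 1) j else max (X (m + 1) j) (X (m - 1) (j - 1))) +
      (if j = m then X (m + 1) (j + 1) else min (X (m + 1) (j + 1)) (X (m - 1) j)) - X m j := by
      unfold toggle
      rw [if_pos ⟨rfl, hj1, hj2⟩]
    have b1 : j < m → X m j ≤ X (m - 1) j := by
      intro hj
      have := h.low (m - 1) j hj1 (by omega) (by omega)
      rwa [show m - 1 + 1 = m by omega] at this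
    have b2 : 1 < j → X (m - 1) (j - 1) ≤ X m j := by
      intro hj
      have := h.upp (m - 1) (j - 1) (by omega) (by omega) (by omega)
      rwa [show m - 1 + 1 = m by omega, show j - 1 + 1 = j by omega] at this
    rw [e]
    by_cases c1 : j = 1 <;> by_cases c2 : j = m
    · rw [if_pos c1, if_pos c2]
      refine ⟨by omega, by omega, fun _ => by omega, fun _ => by omega⟩
    · have b1' := b1 (by omega)
      rw [if_pos c1, if_neg c2]
      refine ⟨by omega, by omega, fun _ => by omega, fun _ => by omega⟩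
    · have b2' := b2 (by omega)
      rw [if_neg c1, if_pos c2]
      refine ⟨by omega, by omega, fun _ => by omega, fun _ => by omega⟩
    · have b1' := b1 (by omega)
      have b2' := b2 (by omega)
      rw [if_neg c1, if_neg c2]
      refine ⟨by omega, by omega, fun _ => by omega, fun _ => by omega⟩
  have hne : ∀ i j, i ≠ m → toggle m X i j = X i j := by
    intro i j hi
    unfold toggle
    rw [if_neg (by omega)]
  refine ⟨?_, ?_, ?_⟩
  · intro i j hj1 hj2 hi
    by_cases him : i = m
    · subst him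
      have := (hrow j hj1 hj2).1
      have := h.pos (i + 1) j hj1 (by omega) h2
      omega
    · rw [hne i j him]
      exact h.pos i j hj1 hj2 hi
  · intro i j hj1 hj2 hi
    by_cases him : i = m
    · subst him
      rw [hne (i + 1) j (by omega)]
      exact (hrow j hj1 hj2).1
    · rw [hne i j him]
      by_cases him' : i + 1 = m
      · subst him'
        have := (hrow j hj1 (by omega)).2.2.1 (by omega)
        simpa using this
      · rw [hne _ _ him']
        exact h.low i j hj1 hj2 hi
  · intro i j hj1 hj2 hi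
    by_cases him : i = m
    · subst him
      rw [hne (i + 1) (j + 1) (by omega)]
      exact (hrow j hj1 hj2).2.1
    · rw [hne i j him]
      by_cases him' : i + 1 = m
      · subst him'
        have := (hrow (j + 1) (by omega) (by omega)).2.2.2 (by omega)
        simpa using this
      · rw [hne _ _ him']
        exact h.upp i j hj1 hj2 hi

theorem omega_GT {n : ℕ} {X : ℕ → ℕ → ℤ} (h : IsGT n X) (m : ℕ) (hm : m + 1 ≤ n) :
    IsGT n (omega m X) := by
  induction m with
  | zero => exact h
  | succ m ih => exact toggle_GT (ih (by omega)) (by omega) hm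

theorem omegas_GT {n : ℕ} (m : ℕ) : ∀ {X : ℕ → ℕ → ℤ}, IsGT n X → m + 1 ≤ n →
    IsGT n (omegas m X) := by
  induction m with
  | zero => intro X h _; exact h
  | succ m ih =>
    intro X h hm
    exact ih (omega_GT h (m + 1) hm) (by omega)

theorem schutz_GT {n : ℕ} {X : ℕ → ℕ → ℤ} (hn : 1 ≤ n) (h : IsGT n X) : IsGT n (schutz n X) :=
  omegas_GT (n - 1) h (by omega)

/-- GOGAm triangles in terms of last passage times -/
theorem isGOGAm_iff {N : ℕ} {X : ℕ → ℕ → ℤ} : IsGOGAm (N + 1) X ↔ IsGT (N + 1) X ∧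
    ∀ b, b ≤ N → cc N 1 (col X) b ≤ ((N + 1 - b : ℕ) : ℤ) := by
  constructor
  · rintro ⟨h1, h2, h3⟩
    refine ⟨h1, fun b hb => ?_⟩
    rw [← schutz_diag N X b hb]
    exact h3 _ (by omega) (by omega)
  · rintro ⟨h1, h2⟩
    refine ⟨h1, schutz_GT (by omega) h1, fun j hj1 hj2 => ?_⟩
    have := h2 (N + 1 - j) (by omega)
    rw [← schutz_diag N X _ (by omega)] at this
    rwa [show N + 1 - (N + 1 - j) = j by omega] at this

theorem stepF_mono {n : ℕ} {u g g' : ℕ → ℤ} (hn : 0 < n) (h : ∀ b, b < n → g b ≤ g' b) (b : ℕ) :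
    stepF n u g b ≤ stepF n u g' b := by
  rcases b with _ | b
  · rw [stepF_zero, stepF_zero]
    exact h 0 hn
  · rcases lt_trichotomy (b + 1) n with h1 | h1 | h1
    · rw [stepF_mid _ _ h1, stepF_mid _ _ h1]
      have := h b (by omega)
      have := h (b + 1) h1
      omega
    · rw [stepF_last _ _ h1, stepF_last _ _ h1]
      have := h b (by omega)
      omega
    · rw [stepF_out _ _ hn h1, stepF_out _ _ hn h1]

theorem stepF_congr {n : ℕ} {u g g' : ℕ → ℤ} (hn : 0 < n) (h : ∀ b, b < n → g b = g' b) (b : ℕ) :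
    stepF n u g b = stepF n u g' b :=
  le_antisymm (stepF_mono hn (fun b hb => le_of_eq (h b hb)) b)
    (stepF_mono hn (fun b hb => le_of_eq (h b hb).symm) b)

/-- adding one more column increases the last passage times -/
theorem cc_le_succ {L : ℕ} (hL : 0 < L) : ∀ (k : ℕ) (x : Arr), (∀ b, b < L → x k b ≤ x (k + 1) b) →
    ∀ b, b < L + 1 + k → cc k (L + 1) x b ≤ cc (k + 1) L x b := by
  intro k
  induction k with
  | zero =>
    intro x h b hb
    have h1' : ∀ b, b < L → x 0 b ≤ x 1 b := h
    show x 0 b ≤ stepF (L + 0) (x 0) (x 1) b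
    rcases b with _ | b
    · rw [stepF_zero]
      exact h1' 0 hL
    · rcases lt_or_eq_of_le (show b + 1 ≤ L by omega) with h1 | h1
      · rw [stepF_mid _ _ (by omega)]
        have := h1' (b + 1) h1
        omega
      · rw [stepF_last _ _ (by omega)]
        have := h1' b (by omega)
        omega
  | succ k ih =>
    intro x h b hb
    rw [cc_succ, cc_succ]
    rw [show L + (k + 1) = L + 1 + k by omega]
    exact stepF_mono (by omega) (ih (sh x) h) b

/-- equality when the new column repeats the last one -/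
theorem cc_eq_succ {L : ℕ} (hL : 0 < L) : ∀ (k : ℕ) (x : Arr), (∀ b, b < L → x (k + 1) b = x k b) →
    (∀ b, b < L → x k (b + 1) ≤ x k b) → ∀ b, b < L + 1 + k →
      cc (k + 1) L x b = cc k (L + 1) x b := by
  intro k
  induction k with
  | zero =>
    intro x h h' b hb
    have h1' : ∀ b, b < L → x 1 b = x 0 b := h
    show stepF (L + 0) (x 0) (x 1) b = x 0 b
    rcases b with _ | b
    · rw [stepF_zero]
      exact h1' 0 hL
    · rcases lt_or_eq_of_le (show b + 1 ≤ L by omega) with h1 | h1
      · rw [stepF_mid _ _ (by omega), h1' (b + 1) h1, h1' b (by omega)]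
        have e3 := h' b (by omega)
        omega
      · rw [stepF_last _ _ (by omega), h1' b (by omega)]
        omega
  | succ k ih =>
    intro x h h' b hb
    rw [cc_succ, cc_succ]
    rw [show L + (k + 1) = L + 1 + k by omega]
    exact stepF_congr (by omega) (ih (sh x) h h') b

theorem cc_le_add {L : ℕ} (hL : 0 < L) (d : ℕ) : ∀ (k : ℕ) (x : Arr),
    (∀ r b, k ≤ r → r < k + d → r + 1 + b < L + k + d → x r b ≤ x (r + 1) b) →
    ∀ b, b < L + k + d → cc k (L + d) x b ≤ cc (k + d) L x b := by
  induction d with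
  | zero => intro k x _ b _; exact le_refl _
  | succ d ih =>
    intro k x h b hb
    have h1 := cc_le_succ (L := L + d) (by omega) k x (fun b hb => h k b (le_refl _) (by omega)
      (by omega)) b (by omega)
    have h2 := ih (k + 1) x (fun r b hr1 hr2 hr3 => h r b (by omega) (by omega) (by omega)) b
      (by omega)
    rw [show k + (d + 1) = k + 1 + d by omega]
    exact le_trans h1 h2

theorem cc_eq_add {L : ℕ} (hL : 0 < L) (d : ℕ) : ∀ (k : ℕ) (x : Arr),
    (∀ r b, k ≤ r → r < k + d → r + 1 + b < L + k + d → x (r + 1) b = x r b) →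
    (∀ b, b + 1 < L + d → x k (b + 1) ≤ x k b) →
    ∀ b, b < L + k + d → cc (k + d) L x b = cc k (L + d) x b := by
  induction d with
  | zero => intro k x _ _ b _; rfl
  | succ d ih =>
    intro k x h h' b hb
    have h1 := cc_eq_succ (L := L + d) (by omega) k x (fun b hb => h k b (le_refl _) (by omega)
      (by omega)) (fun b hb => h' b (by omega)) b (by omega)
    have h2 := ih (k + 1) x (fun r b hr1 hr2 hr3 => h r b (by omega) (by omega) (by omega))
      (fun b hb => by
        rw [h k b (le_refl _) (by omega) (by omega), h k (b + 1) (le_refl _) (by omega) (by omega)]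
        exact h' b (by omega)) b (by omega)
    rw [show k + (d + 1) = k + 1 + d by omega, h2, h1]
    rfl

theorem cc_congr {L : ℕ} (hL : 0 < L) : ∀ (k : ℕ) (x y : Arr),
    (∀ r b, r ≤ k → r + b < L + k → x r b = y r b) → ∀ b, b < L + k →
      cc k L x b = cc k L y b := by
  intro k
  induction k with
  | zero => intro x y h b hb; exact h 0 b (le_refl _) (by omega)
  | succ k ih =>
    intro x y h b hb
    rw [cc_succ, cc_succ]
    have h1 := ih (sh x) (sh y) (fun r b hr hb => h (r + 1) b (by omega) (by omega))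
    rw [stepF_congr (by omega) h1 b]
    have h2 : ∀ b, b < L + (k + 1) → x 0 b = y 0 b := fun b hb => h 0 b (by omega) (by omega)
    rcases b with _ | b
    · rw [stepF_zero, stepF_zero]
    · rcases lt_trichotomy (b + 1) (L + k) with h3 | h3 | h3
      · rw [stepF_mid _ _ h3, stepF_mid _ _ h3, h2 b (by omega), h2 (b + 1) (by omega)]
      · rw [stepF_last _ _ h3, stepF_last _ _ h3, h2 b (by omega), h2 (b + 1) (by omega)]
      · omega

/-- unfolding left arrays -/
theorem SL_iff (k L : ℕ) : ∀ x : Arr, SL k L x ↔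
    (∀ r b, r ≤ k → r + b < L + k → 1 ≤ x r b) ∧
    (∀ r b, r ≤ k → r + b + 1 < L + k → x r (b + 1) ≤ x r b) ∧
    (∀ r b, r + 1 ≤ k → r + 1 + b < L + k → x r b ≤ x (r + 1) b) ∧
    (∀ r b, ¬ (r ≤ k ∧ r + b < L + k) → x r b = 0) := by
  induction k with
  | zero =>
    intro x
    constructor
    · rintro ⟨h1, h2⟩
      refine ⟨?_, ?_, ?_, ?_⟩
      · intro r b hr hb
        obtain rfl : r = 0 := by omega
        exact h1.pos b (by omega)
      · intro r b hr hb
        obtain rfl : r = 0 := by omega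
        exact h1.dec b (by omega)
      · intro r b hr; omega
      · intro r b hr
        rcases r with _ | r
        · exact h1.zero b (by omega)
        · exact congrFun (congrFun h2 r) b
    · rintro ⟨h1, h2, h3, h4⟩
      refine ⟨⟨fun b hb => h1 0 b (le_refl _) (by omega), fun b hb => h2 0 b (le_refl _) (by omega),
        fun b hb => h4 0 b (by omega)⟩, ?_⟩
      funext r b
      exact h4 (r + 1) b (by omega)
  | succ k ih =>
    intro x
    constructor
    · rintro ⟨h1, h2, h3⟩
      obtain ⟨i1, i2, i3, i4⟩ := (ih (sh x)).1 h3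
      refine ⟨?_, ?_, ?_, ?_⟩
      · intro r b hr hb
        rcases r with _ | r
        · exact h1.pos b (by omega)
        · exact i1 r b (by omega) (by omega)
      · intro r b hr hb
        rcases r with _ | r
        · exact h1.dec b (by omega)
        · exact i2 r b (by omega) (by omega)
      · intro r b hr hb
        rcases r with _ | r
        · exact h2 b (by omega)
        · exact i3 r b (by omega) (by omega)
      · intro r b hr
        rcases r with _ | r
        · exact h1.zero b (by omega)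
        · exact i4 r b (by omega)
    · rintro ⟨h1, h2, h3, h4⟩
      refine ⟨⟨fun b hb => h1 0 b (by omega) (by omega), fun b hb => h2 0 b (by omega) (by omega),
        fun b hb => h4 0 b (by omega)⟩, fun b hb => h3 0 b (by omega) (by omega), ?_⟩
      exact (ih (sh x)).2 ⟨fun r b hr hb => h1 (r + 1) b (by omega) (by omega),
        fun r b hr hb => h2 (r + 1) b (by omega) (by omega),
        fun r b hr hb => h3 (r + 1) b (by omega) (by omega),
        fun r b hr => h4 (r + 1) b (by omega)⟩

/-- unfolding right arrays -/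
theorem SR_iff (k L : ℕ) : ∀ x : Arr, SR k L x ↔
    (∀ r b, r ≤ k → r + b < L + k → 1 ≤ x r b) ∧
    (∀ r b, r ≤ k → r + b + 1 < L + k → x r (b + 1) ≤ x r b) ∧
    (∀ r b, r + 1 ≤ k → r + 1 + b < L + k → x (r + 1) b ≤ x r (b + 1)) ∧
    (∀ r b, ¬ (r ≤ k ∧ r + b < L + k) → x r b = 0) := by
  induction k with
  | zero =>
    intro x
    constructor
    · rintro ⟨h1, h2⟩
      refine ⟨?_, ?_, ?_, ?_⟩
      · intro r b hr hb
        obtain rfl : r = 0 := by omega
        exact h1.pos b (by omega)
      · intro r b hr hb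
        obtain rfl : r = 0 := by omega
        exact h1.dec b (by omega)
      · intro r b hr; omega
      · intro r b hr
        rcases r with _ | r
        · exact h1.zero b (by omega)
        · exact congrFun (congrFun h2 r) b
    · rintro ⟨h1, h2, h3, h4⟩
      refine ⟨⟨fun b hb => h1 0 b (le_refl _) (by omega), fun b hb => h2 0 b (le_refl _) (by omega),
        fun b hb => h4 0 b (by omega)⟩, ?_⟩
      funext r b
      exact h4 (r + 1) b (by omega)
  | succ k ih =>
    intro x
    constructor
    · rintro ⟨h1, h2, h3⟩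
      obtain ⟨i1, i2, i3, i4⟩ := (ih (sh x)).1 h3
      refine ⟨?_, ?_, ?_, ?_⟩
      · intro r b hr hb
        rcases r with _ | r
        · exact h1.pos b (by omega)
        · exact i1 r b (by omega) (by omega)
      · intro r b hr hb
        rcases r with _ | r
        · exact h1.dec b (by omega)
        · exact i2 r b (by omega) (by omega)
      · intro r b hr hb
        rcases r with _ | r
        · exact h2 b (by omega)
        · exact i3 r b (by omega) (by omega)
      · intro r b hr
        rcases r with _ | r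
        · exact h1.zero b (by omega)
        · exact i4 r b (by omega)
    · rintro ⟨h1, h2, h3, h4⟩
      refine ⟨⟨fun b hb => h1 0 b (by omega) (by omega), fun b hb => h2 0 b (by omega) (by omega),
        fun b hb => h4 0 b (by omega)⟩, fun b hb => h3 0 b (by omega) (by omega), ?_⟩
      exact (ih (sh x)).2 ⟨fun r b hr hb => h1 (r + 1) b (by omega) (by omega),
        fun r b hr hb => h2 (r + 1) b (by omega) (by omega),
        fun r b hr hb => h3 (r + 1) b (by omega) (by omega),
        fun r b hr => h4 (r + 1) b (by omega)⟩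


/-- the array of columns of a left trapezoid -/
noncomputable def toL {n K : ℕ} (f : LeftIdx n K → ℤ) : Arr := fun r b =>
  if h : r + 1 ≤ K ∧ r + 1 + b ≤ n then
    f ⟨(r + 1 + b, r + 1), by simp only; omega⟩ else 0

/-- the array of diagonals of a right trapezoid -/
noncomputable def toR {n K : ℕ} (f : RightIdx n K → ℤ) : Arr := fun r b =>
  if h : r + 1 ≤ K ∧ r + b + 1 ≤ n then
    f ⟨(n - b, n - b - r), by simp only; omega⟩ else 0

theorem toL_eq {n K : ℕ} {f : LeftIdx n K → ℤ} {X : ℕ → ℕ → ℤ}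
    (hf : ∀ p : LeftIdx n K, f p = X p.1.1 p.1.2) (r b : ℕ) (h : r + 1 ≤ K ∧ r + 1 + b ≤ n) :
    toL f r b = col X r b := by
  unfold toL
  rw [dif_pos h, hf]
  rfl

theorem toR_eq {n K : ℕ} {f : RightIdx n K → ℤ} {X : ℕ → ℕ → ℤ}
    (hf : ∀ p : RightIdx n K, f p = X p.1.1 p.1.2) (r b : ℕ) (h : r + 1 ≤ K ∧ r + b + 1 ≤ n) :
    toR f r b = X (n - b) (n - b - r) := by
  unfold toR
  rw [dif_pos h, hf]

theorem toL_inj {n K : ℕ} {f g : LeftIdx n K → ℤ} (h : toL f = toL g) : f = g := by
  funext p
  obtain ⟨⟨i, j⟩, h1, h2, h3, h4⟩ := p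
  simp only at h1 h2 h3 h4
  have := congrFun (congrFun h (j - 1)) (i - j)
  unfold toL at this
  rw [dif_pos (by omega), dif_pos (by omega)] at this
  have e : ∀ (a b : ℕ) (hab : 1 ≤ (a, b).2 ∧ (a, b).2 ≤ (a, b).1 ∧ (a, b).1 ≤ n ∧ (a, b).2 ≤ K),
      a = i → b = j → f ⟨(a, b), hab⟩ = f ⟨(i, j), h1, h2, h3, h4⟩ ∧
        g ⟨(a, b), hab⟩ = g ⟨(i, j), h1, h2, h3, h4⟩ := by
    intro a b hab ha hb
    subst ha hb
    exact ⟨rfl, rfl⟩
  obtain ⟨e1, e2⟩ := e (j - 1 + 1 + (i - j)) (j - 1 + 1) (by simp only; omega) (by omega) (by omega)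
  rw [← e1, ← e2]
  exact this

theorem toR_inj {n K : ℕ} {f g : RightIdx n K → ℤ} (h : toR f = toR g) : f = g := by
  funext p
  obtain ⟨⟨i, j⟩, h1, h2, h3, h4⟩ := p
  simp only at h1 h2 h3 h4
  have := congrFun (congrFun h (i - j)) (n - i)
  unfold toR at this
  rw [dif_pos (by omega), dif_pos (by omega)] at this
  have e : ∀ (a b : ℕ) (hab : 1 ≤ (a, b).2 ∧ (a, b).2 ≤ (a, b).1 ∧ (a, b).1 ≤ n ∧
        (a, b).1 + 1 ≤ (a, b).2 + K),
      a = i → b = j → f ⟨(a, b), hab⟩ = f ⟨(i, j), h1, h2, h3, h4⟩ ∧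
        g ⟨(a, b), hab⟩ = g ⟨(i, j), h1, h2, h3, h4⟩ := by
    intro a b hab ha hb
    subst ha hb
    exact ⟨rfl, rfl⟩
  obtain ⟨e1, e2⟩ := e (n - (n - i)) (n - (n - i) - (i - j)) (by simp only; omega) (by omega)
    (by omega)
  rw [← e1, ← e2]
  exact this

/-- the left arrays coming from GOGAm triangles -/
def AL (n K : ℕ) : Set Arr :=
  {x | SL (K - 1) (n - K + 1) x ∧ ∀ b, b < n → cc (K - 1) (n - K + 1) x b ≤ ((n - b : ℕ) : ℤ)}

/-- the right arrays coming from Magog triangles -/
def AR (n K : ℕ) : Set Arr :=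
  {y | SR (K - 1) (n - K + 1) y ∧ ∀ b, b < n → y 0 b ≤ ((n - b : ℕ) : ℤ)}

theorem ncard_AL_AR {n K : ℕ} : (AL n K).ncard = (AR n K).ncard := by
  obtain ⟨φ, ⟨p1, p2, p3⟩, hφ⟩ := exists_bij (K - 1) (n - K + 1) (by omega)
  apply Set.ncard_congr (fun x _ => φ x)
  · rintro x ⟨hx1, hx2⟩
    refine ⟨p1 hx1, fun b hb => ?_⟩
    rw [hφ x hx1]
    exact hx2 b hb
  · rintro x y ⟨hx1, _⟩ ⟨hy1, _⟩ hxy
    exact p2 hx1 hy1 hxy
  · rintro y ⟨hy1, hy2⟩
    obtain ⟨x, hx1, hx2⟩ := p3 hy1
    refine ⟨x, ⟨hx1, fun b hb => ?_⟩, hx2⟩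
    rw [← hφ x hx1, hx2]
    exact hy2 b hb

theorem ncard_left {n K : ℕ} (h1 : 1 ≤ K) (h2 : K ≤ n) :
    (leftTrapezoids n K (IsGOGAm n)).ncard = (AL n K).ncard := by
  obtain ⟨N, rfl⟩ : ∃ N, n = N + 1 := ⟨n - 1, by omega⟩
  obtain ⟨k, rfl⟩ : ∃ k, K = k + 1 := ⟨K - 1, by omega⟩
  apply Set.ncard_congr (fun f _ => toL f)
  · rintro f ⟨X, hX, hf⟩
    have hx := toL_eq hf
    obtain ⟨hG, hc⟩ := isGOGAm_iff.1 hX
    refine ⟨?_, ?_⟩
    · show SL (k + 1 - 1) _ _
      rw [show k + 1 - 1 = k by omega, SL_iff]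
      refine ⟨?_, ?_, ?_, ?_⟩
      · intro r b hr hb
        rw [hx r b (by omega)]
        exact hG.pos _ _ (by omega) (by omega) (by omega)
      · intro r b hr hb
        rw [hx r b (by omega), hx r (b + 1) (by omega)]
        exact hG.low (r + 1 + b) (r + 1) (by omega) (by omega) (by omega)
      · intro r b hr hb
        rw [hx r b (by omega), hx (r + 1) b (by omega)]
        have := hG.upp (r + 1 + b) (r + 1) (by omega) (by omega) (by omega)
        show X (r + 1 + b) (r + 1) ≤ X (r + 1 + 1 + b) (r + 1 + 1)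
        rwa [show r + 1 + 1 + b = r + 1 + b + 1 by omega]
      · intro r b hr
        unfold toL
        rw [dif_neg (by omega)]
    · intro b hb
      rw [show k + 1 - 1 = k by omega]
      rw [cc_congr (by omega) k (toL f) (col X) (fun r b hr hb => hx r b (by omega)) b (by omega)]
      have e := cc_le_add (L := 1) (by omega) (N + 1 - (k + 1)) k (col X) (by
        intro r b hr1 hr2 hr3
        have := hG.upp (r + 1 + b) (r + 1) (by omega) (by omega) (by omega)
        show X (r + 1 + b) (r + 1) ≤ X (r + 1 + 1 + b) (r + 1 + 1)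
        rwa [show r + 1 + 1 + b = r + 1 + b + 1 by omega]) b (by omega)
      rw [show N + 1 - (k + 1) + 1 = 1 + (N + 1 - (k + 1)) by omega]
      refine le_trans e ?_
      rw [show k + (N + 1 - (k + 1)) = N by omega]
      exact hc b (by omega)
  · intro f g _ _ h
    exact toL_inj h
  · rintro x ⟨hx, hb⟩
    rw [show k + 1 - 1 = k by omega] at hx hb
    obtain ⟨x1, x2, x3, x4⟩ := (SL_iff _ _ x).1 hx
    set X : ℕ → ℕ → ℤ := fun i j => if j ≤ k + 1 then x (j - 1) (i - j) else x k (i - j) with hXdef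
    have hXle : ∀ i j, j ≤ k + 1 → X i j = x (j - 1) (i - j) := by
      intro i j h
      rw [hXdef]
      simp only
      rw [if_pos h]
    have hXge : ∀ i j, k + 1 ≤ j → X i j = x k (i - j) := by
      intro i j h
      rw [hXdef]
      simp only
      by_cases h' : j ≤ k + 1
      · rw [if_pos h', show j - 1 = k by omega]
      · rw [if_neg h']
    have hG : IsGT (N + 1) X := by
      refine ⟨?_, ?_, ?_⟩
      · intro i j hj1 hj2 hi
        rcases le_total j (k + 1) with h | h
        · rw [hXle _ _ h]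
          exact x1 _ _ (by omega) (by omega)
        · rw [hXge _ _ h]
          exact x1 _ _ (by omega) (by omega)
      · intro i j hj1 hj2 hi
        rcases le_total j (k + 1) with h | h
        · rw [hXle _ _ h, hXle _ _ h, show i + 1 - j = i - j + 1 by omega]
          exact x2 _ _ (by omega) (by omega)
        · rw [hXge _ _ h, hXge _ _ h, show i + 1 - j = i - j + 1 by omega]
          exact x2 _ _ (by omega) (by omega)
      · intro i j hj1 hj2 hi
        rcases lt_or_ge j (k + 1) with h | h
        · rw [hXle _ _ (by omega), hXle _ _ (by omega), show i + 1 - (j + 1) = i - j by omega,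
            show j + 1 - 1 = j - 1 + 1 by omega]
          exact x3 _ _ (by omega) (by omega)
        · rw [hXge _ _ h, hXge _ _ (by omega), show i + 1 - (j + 1) = i - j by omega]
    have hcol1 : ∀ r b, r ≤ k → col X r b = x r b := by
      intro r b hr
      show X (r + 1 + b) (r + 1) = x r b
      rw [hXle _ _ (by omega), show r + 1 - 1 = r by omega, show r + 1 + b - (r + 1) = b by omega]
    have hcol2 : ∀ r b, k ≤ r → col X r b = x k b := by
      intro r b hr
      show X (r + 1 + b) (r + 1) = x k b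
      rw [hXge _ _ (by omega), show r + 1 + b - (r + 1) = b by omega]
    refine ⟨fun p => X p.1.1 p.1.2, ⟨X, isGOGAm_iff.2 ⟨hG, ?_⟩, fun p => rfl⟩, ?_⟩
    · intro b hb'
      have e := cc_eq_add (L := 1) (by omega) (N + 1 - (k + 1)) k (col X) (by
        intro r b hr1 hr2 hr3
        rw [hcol2 _ _ hr1, hcol2 _ _ (by omega)]) (by
        intro b hb
        rw [hcol2 _ _ (le_refl _), hcol2 _ _ (le_refl _)]
        exact x2 k b (le_refl _) (by omega)) b (by omega)
      rw [show k + (N + 1 - (k + 1)) = N by omega] at e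
      rw [e, cc_congr (by omega) k (col X) x (fun r b hr _ => hcol1 r b hr) b (by omega),
        show 1 + (N + 1 - (k + 1)) = N + 1 - (k + 1) + 1 by omega]
      exact hb b (by omega)
    · funext r b
      show toL (fun p : LeftIdx (N + 1) (k + 1) => X p.1.1 p.1.2) r b = x r b
      by_cases h : r + 1 ≤ k + 1 ∧ r + 1 + b ≤ N + 1
      · rw [toL_eq (X := X) (fun p => rfl) r b h, hcol1 r b (by omega)]
      · unfold toL
        rw [dif_neg h]
        exact (x4 r b (by omega)).symm

theorem ncard_right {n K : ℕ} (h1 : 1 ≤ K) (h2 : K ≤ n) :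
    (rightTrapezoids n K (IsMagog n)).ncard = (AR n K).ncard := by
  obtain ⟨N, rfl⟩ : ∃ N, n = N + 1 := ⟨n - 1, by omega⟩
  obtain ⟨k, rfl⟩ : ∃ k, K = k + 1 := ⟨K - 1, by omega⟩
  apply Set.ncard_congr (fun f _ => toR f)
  · rintro f ⟨X, hX, hf⟩
    have hx := toR_eq hf
    obtain ⟨hG, hc⟩ := hX
    refine ⟨?_, ?_⟩
    · show SR (k + 1 - 1) _ _
      rw [show k + 1 - 1 = k by omega, SR_iff]
      refine ⟨?_, ?_, ?_, ?_⟩
      · intro r b hr hb
        rw [hx r b (by omega)]
        exact hG.pos _ _ (by omega) (by omega) (by omega)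
      · intro r b hr hb
        rw [hx r b (by omega), hx r (b + 1) (by omega)]
        have := hG.upp (N + 1 - (b + 1)) (N + 1 - (b + 1) - r) (by omega) (by omega) (by omega)
        rwa [show N + 1 - (b + 1) + 1 = N + 1 - b by omega,
          show N + 1 - (b + 1) - r + 1 = N + 1 - b - r by omega] at this
      · intro r b hr hb
        rw [hx r (b + 1) (by omega), hx (r + 1) b (by omega)]
        have := hG.low (N + 1 - (b + 1)) (N + 1 - (b + 1) - r) (by omega) (by omega) (by omega)
        rwa [show N + 1 - (b + 1) + 1 = N + 1 - b by omega,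
          show X (N + 1 - b) (N + 1 - (b + 1) - r) = X (N + 1 - b) (N + 1 - b - (r + 1)) by
            rw [show N + 1 - (b + 1) - r = N + 1 - b - (r + 1) by omega]] at this
      · intro r b hr
        unfold toR
        rw [dif_neg (by omega)]
    · intro b hb
      rw [hx 0 b (by omega)]
      exact hc _ (by omega) (by omega)
  · intro f g _ _ h
    exact toR_inj h
  · rintro x ⟨hx, hb⟩
    rw [show k + 1 - 1 = k by omega] at hx
    obtain ⟨x1, x2, x3, x4⟩ := (SR_iff _ _ x).1 hx
    set X : ℕ → ℕ → ℤ := fun i j => if i + 1 ≤ j + (k + 1) then x (i - j) (N + 1 - i) else 1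
      with hXdef
    have hXp : ∀ i j, i + 1 ≤ j + (k + 1) → X i j = x (i - j) (N + 1 - i) := by
      intro i j h
      rw [hXdef]
      simp only
      rw [if_pos h]
    have hXn : ∀ i j, ¬ (i + 1 ≤ j + (k + 1)) → X i j = 1 := by
      intro i j h
      rw [hXdef]
      simp only
      rw [if_neg h]
    have hpos : ∀ i j, 1 ≤ j → j ≤ i → i ≤ N + 1 → 1 ≤ X i j := by
      intro i j hj1 hj2 hi
      by_cases h : i + 1 ≤ j + (k + 1)
      · rw [hXp _ _ h]
        exact x1 _ _ (by omega) (by omega)
      · rw [hXn _ _ h]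
    have hG : IsGT (N + 1) X := by
      refine ⟨hpos, ?_, ?_⟩
      · intro i j hj1 hj2 hi
        by_cases h : i + 1 + 1 ≤ j + (k + 1)
        · rw [hXp _ _ h, hXp _ _ (by omega)]
          have := x3 (i - j) (N + 1 - (i + 1)) (by omega) (by omega)
          rwa [show i - j + 1 = i + 1 - j by omega,
            show N + 1 - (i + 1) + 1 = N + 1 - i by omega] at this
        · rw [hXn _ _ h]
          exact hpos i j hj1 hj2 (by omega)
      · intro i j hj1 hj2 hi
        by_cases h : i + 1 ≤ j + (k + 1)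
        · rw [hXp _ _ h, hXp _ _ (by omega)]
          have := x2 (i - j) (N + 1 - (i + 1)) (by omega) (by omega)
          rw [show N + 1 - (i + 1) + 1 = N + 1 - i by omega] at this
          rwa [show i + 1 - (j + 1) = i - j by omega]
        · rw [hXn _ _ h, hXn _ _ (by omega)]
    refine ⟨fun p => X p.1.1 p.1.2, ⟨X, ⟨hG, ?_⟩, fun p => rfl⟩, ?_⟩
    · intro j hj1 hj2
      rw [hXp _ _ (by omega), show j - j = 0 by omega]
      have := hb (N + 1 - j) (by omega)
      rwa [show N + 1 - (N + 1 - j) = j by omega] at this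
    · funext r b
      show toR (fun p : RightIdx (N + 1) (k + 1) => X p.1.1 p.1.2) r b = x r b
      by_cases h : r + 1 ≤ k + 1 ∧ r + b + 1 ≤ N + 1
      · rw [toR_eq (X := X) (fun p => rfl) r b h, hXp _ _ (by omega),
          show N + 1 - b - (N + 1 - b - r) = r by omega, show N + 1 - (N + 1 - b) = b by omega]
      · unfold toR
        rw [dif_neg h]
        exact (x4 r b (by omega)).symm

theorem le_top {n : ℕ} {X : ℕ → ℕ → ℤ} (h : IsGT n X) : ∀ (d i : ℕ), 1 ≤ i → i + d = n →
    X i i ≤ X n n := by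
  intro d
  induction d with
  | zero =>
    intro i _ h2
    obtain rfl : i = n := by omega
    exact le_refl _
  | succ d ih =>
    intro i h1 h2
    exact le_trans (h.upp i i h1 (le_refl _) (by omega)) (ih (i + 1) (by omega) (by omega))

theorem le_diag {n : ℕ} {X : ℕ → ℕ → ℤ} (h : IsGT n X) : ∀ (d i j : ℕ), 1 ≤ j → j + d = i →
    i ≤ n → X i j ≤ X j j := by
  intro d
  induction d with
  | zero =>
    intro i j _ h2 _
    obtain rfl : i = j := by omega
    exact le_refl _
  | succ d ih =>
    intro i j h1 h2 h3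
    have := h.low (i - 1) j h1 (by omega) (by omega)
    rw [show i - 1 + 1 = i by omega] at this
    exact le_trans this (ih (i - 1) j h1 (by omega) (by omega))

theorem le_all {n : ℕ} {X : ℕ → ℕ → ℤ} (h : IsGT n X) (i j : ℕ) (h1 : 1 ≤ j) (h2 : j ≤ i)
    (h3 : i ≤ n) : X i j ≤ X n n :=
  le_trans (le_diag h (i - j) i j h1 (by omega) h3) (le_top h (n - j) j h1 (by omega))

theorem finite_idx {n K : ℕ} : Finite (LeftIdx n K) ∧ Finite (RightIdx n K) := by
  constructor
  · apply Finite.of_injective (β := Fin (n + 1) × Fin (n + 1))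
      (fun p => (⟨p.1.1, by have := p.2; omega⟩, ⟨p.1.2, by have := p.2; omega⟩))
    intro p q h
    simp only [Prod.mk.injEq, Fin.mk.injEq] at h
    exact Subtype.ext (Prod.ext h.1 h.2)
  · apply Finite.of_injective (β := Fin (n + 1) × Fin (n + 1))
      (fun p => (⟨p.1.1, by have := p.2; omega⟩, ⟨p.1.2, by have := p.2; omega⟩))
    intro p q h
    simp only [Prod.mk.injEq, Fin.mk.injEq] at h
    exact Subtype.ext (Prod.ext h.1 h.2)

theorem finite_left {n K : ℕ} (hn : 1 ≤ n) : (leftTrapezoids n K (IsGOGAm n)).Finite := by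
  have := (finite_idx (n := n) (K := K)).1
  apply (Set.Finite.pi' (fun _ : LeftIdx n K => Set.finite_Icc (1 : ℤ) n)).subset
  rintro f ⟨X, hX, hf⟩ p
  obtain ⟨h1, h2, h3⟩ := hX
  have hp := p.2
  rw [hf]
  refine ⟨h1.pos _ _ hp.1 hp.2.1 hp.2.2.1, ?_⟩
  have e1 := le_all h1 p.1.1 p.1.2 hp.1 hp.2.1 hp.2.2.1
  have e2 := h3 n hn (le_refl _)
  unfold schutz at e2
  rw [omegas_above _ _ _ _ (by omega)] at e2
  exact le_trans e1 e2

theorem finite_right {n K : ℕ} (hn : 1 ≤ n) : (rightTrapezoids n K (IsMagog n)).Finite := by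
  have := (finite_idx (n := n) (K := K)).2
  apply (Set.Finite.pi' (fun _ : RightIdx n K => Set.finite_Icc (1 : ℤ) n)).subset
  rintro f ⟨X, hX, hf⟩ p
  obtain ⟨h1, h2⟩ := hX
  have hp := p.2
  rw [hf]
  refine ⟨h1.pos _ _ hp.1 hp.2.1 hp.2.2.1, ?_⟩
  exact le_trans (le_all h1 p.1.1 p.1.2 hp.1 hp.2.1 hp.2.2.1) (h2 n hn (le_refl _))

/-- left GOGAm trapezoids and right Magog trapezoids are equinumerous -/
theorem main {n K : ℕ} (h1 : 1 ≤ K) (h2 : K ≤ n) :
    (leftTrapezoids n K (IsGOGAm n)).ncard = (rightTrapezoids n K (IsMagog n)).ncard := by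
  rw [ncard_left h1 h2, ncard_right h1 h2, ncard_AL_AR]

end Pool.Agent.R103.Gog
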