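import Pool.Agent.R103.GogCore
import Pool.Agent.R103.GogDefs

/-!
# The Schutzenberger involution in terms of last passage times
-/

set_option autoImplicit false

namespace Pool.Agent.R103.Gog

open Pool.Agent.R103.GogCore

/-- the columns of a triangle: `col X r b = X (r + 1 + b) (r + 1)` -/
def col (X : ℕ → ℕ → ℤ) : Arr := fun r b => X (r + 1 + b) (r + 1)

theorem cc_zero (L : ℕ) (x : Arr) : cc 0 L x = x 0 := rfl
theorem cc_succ (k L : ℕ) (x : Arr) : cc (k + 1) L x = stepF (L + k) (x 0) (cc k L (sh x)) := rfl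

/-- one application of the promotion step -/
theorem promo (k : ℕ) : ∀ (x z : Arr) (w : ℕ → ℤ),
    (∀ b, b ≤ k → z 0 b = max (x 0 (b + 1)) (w b) +
      (if b = 0 then x 1 0 else min (x 1 b) (z 0 (b - 1))) - x 0 b) →
    (∀ r b, r + 1 + b ≤ k → z (r + 1) b = max (x (r + 1) (b + 1)) (z r b) +
      (if b = 0 then x (r + 2) 0 else min (x (r + 2) b) (z (r + 1) (b - 1))) - x (r + 1) b) →
    (∀ b, b < k → cc k 1 z b = max (cc k 1 (sh x) (b + 1))
        (cc k 1 (sh x) b + max (x 0 (b + 1)) (w b) - x 0 b)) ∧
      cc k 1 z k = cc k 1 (sh x) k + max (x 0 (k + 1)) (w k) - x 0 k := by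
  induction k with
  | zero =>
    intro x z w h0 _
    refine ⟨fun b hb => by omega, ?_⟩
    have := h0 0 (le_refl _)
    rw [cc_zero, cc_zero, this]
    simp only [if_true]
    show _ = x 1 0 + _ - _
    ring
  | succ k ih =>
    intro x z w h0 h1
    obtain ⟨i1, i2⟩ := ih (sh x) (sh z) (z 0) (by
      intro b hb
      have := h1 0 b (by omega)
      exact this) (by
      intro r b hb
      have := h1 (r + 1) b (by omega)
      exact this)
    rw [cc_succ, cc_succ]
    have hs1 : sh x 0 = x 1 := rfl
    rw [hs1]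
    have i1' : ∀ b, b < k → cc k 1 (sh z) b = max (cc k 1 (sh (sh x)) (b + 1))
        (cc k 1 (sh (sh x)) b + max (x 1 (b + 1)) (z 0 b) - x 1 b) := i1
    have i2' : cc k 1 (sh z) k = cc k 1 (sh (sh x)) k + max (x 1 (k + 1)) (z 0 k) - x 1 k := i2
    constructor
    · intro b hb
      rcases b with _ | b
      · rw [stepF_zero]
        have t1 := h0 0 (by omega)
        simp only [if_true] at t1
        rcases Nat.eq_zero_or_pos k with hk | hk
        · subst hk
          rw [i2', stepF_last _ _ (show (0 : ℕ) + 1 = 1 + 0 by omega), stepF_zero]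
          omega
        · rw [i1' 0 hk, stepF_mid _ _ (show (0 : ℕ) + 1 < 1 + k by omega), stepF_zero]
          omega
      · rw [stepF_mid _ _ (show b + 1 < 1 + k by omega)]
        have t1 := h0 (b + 1) (by omega)
        rw [if_neg (by omega)] at t1
        simp only [Nat.add_sub_cancel] at t1
        have t2 := i1' b (by omega)
        rcases lt_or_eq_of_le (show b + 1 ≤ k by omega) with h4 | h4
        · rw [i1' (b + 1) h4, t2, stepF_mid _ _ (show b + 1 + 1 < 1 + k by omega),
            stepF_mid _ _ (show b + 1 < 1 + k by omega)]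
          omega
        · subst h4
          rw [i2', t2, stepF_last _ _ (show b + 1 + 1 = 1 + (b + 1) by omega),
            stepF_mid _ _ (show b + 1 < 1 + (b + 1) by omega)]
          omega
    · rw [stepF_last _ _ (show k + 1 = 1 + k by omega), i2']
      have t1 := h0 (k + 1) (le_refl _)
      rw [if_neg (by omega)] at t1
      simp only [Nat.add_sub_cancel] at t1
      rw [stepF_last _ _ (show k + 1 = 1 + k by omega)]
      omega

theorem omega_above (m : ℕ) (X : ℕ → ℕ → ℤ) (i j : ℕ) (h : m < i) : omega m X i j = X i j := by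
  induction m with
  | zero => rfl
  | succ m ih =>
    show toggle (m + 1) (omega m X) i j = X i j
    unfold toggle
    rw [if_neg (by omega), ih (by omega)]

theorem omega_below (m i : ℕ) (X : ℕ → ℕ → ℤ) (j : ℕ) (h : i ≤ m) :
    omega m X i j = omega i X i j := by
  induction m with
  | zero =>
    obtain rfl : i = 0 := by omega
    rfl
  | succ m ih =>
    rcases lt_or_eq_of_le h with h1 | h1
    · show toggle (m + 1) (omega m X) i j = omega i X i j
      unfold toggle
      rw [if_neg (by omega), ih (by omega)]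
    · subst h1
      rfl

/-- the entries of `omega m X` -/
theorem omega_eq (m : ℕ) (X : ℕ → ℕ → ℤ) (i j : ℕ) (h1 : 1 ≤ j) (h2 : j ≤ i) (h3 : i ≤ m) :
    omega m X i j =
      (if j = 1 then X (i + 1) j else max (X (i + 1) j) (omega m X (i - 1) (j - 1))) +
      (if j = i then X (i + 1) (j + 1) else min (X (i + 1) (j + 1)) (omega m X (i - 1) j)) -
        X i j := by
  rw [omega_below m i X j h3]
  obtain ⟨i, rfl⟩ : ∃ i', i = i' + 1 := ⟨i - 1, by omega⟩
  show toggle (i + 1) (omega i X) (i + 1) j = _
  unfold toggle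
  rw [if_pos ⟨rfl, h1, h2⟩]
  simp only [Nat.add_sub_cancel]
  rw [omega_above i X (i + 1) j (by omega), omega_above i X (i + 1 + 1) j (by omega),
    omega_above i X (i + 1 + 1) (j + 1) (by omega), omega_below m i X j (by omega),
    omega_below m i X (j - 1) (by omega)]

theorem omegas_above (m : ℕ) : ∀ (X : ℕ → ℕ → ℤ) (i j : ℕ), m < i → omegas m X i j = X i j := by
  induction m with
  | zero => intro X i j _; rfl
  | succ m ih =>
    intro X i j h
    show omegas m (omega (m + 1) X) i j = X i j
    rw [ih _ _ _ (by omega), omega_above _ _ _ _ h]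

theorem cc_promo (N : ℕ) (X : ℕ → ℕ → ℤ) (b : ℕ) (hb : b ≤ N) :
    cc N 1 (col (omega (N + 1) X)) b = cc (N + 1) 1 (col X) (b + 1) := by
  have hk : ∀ (r b : ℕ), r + b ≤ N → col (omega (N + 1) X) r b =
      (if r = 0 then col X r (b + 1) else max (col X r (b + 1)) (col (omega (N + 1) X) (r - 1) b)) +
      (if b = 0 then col X (r + 1) 0 else min (col X (r + 1) b) (col (omega (N + 1) X) r (b - 1)))
        - col X r b := by
    intro r b hb
    show omega (N + 1) X (r + 1 + b) (r + 1) = _
    rw [omega_eq (N + 1) X (r + 1 + b) (r + 1) (by omega) (by omega) (by omega)]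
    congr 1
    congr 1
    · by_cases hr : r = 0
      · rw [if_pos (by omega), if_pos hr]
        rfl
      · rw [if_neg (by omega), if_neg hr]
        obtain ⟨r, rfl⟩ : ∃ r', r = r' + 1 := ⟨r - 1, by omega⟩
        show max (X (r + 1 + 1 + b + 1) (r + 1 + 1)) (omega (N + 1) X (r + 1 + 1 + b - 1) (r + 1 + 1 - 1)) =
          max (X (r + 1 + 1 + (b + 1)) (r + 1 + 1)) (omega (N + 1) X (r + 1 - 1 + 1 + b) (r + 1 - 1 + 1))
        simp only [Nat.add_sub_cancel]
        rw [show r + 1 + 1 + b - 1 = r + 1 + b by omega, show r + 1 + 1 + b + 1 = r + 1 + 1 + (b + 1) by omega]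
    · by_cases hr : b = 0
      · rw [if_pos (by omega), if_pos hr]
        subst hr
        rfl
      · rw [if_neg (by omega), if_neg hr]
        obtain ⟨b, rfl⟩ : ∃ b', b = b' + 1 := ⟨b - 1, by omega⟩
        show min (X (r + 1 + (b + 1) + 1) (r + 1 + 1)) (omega (N + 1) X (r + 1 + (b + 1) - 1) (r + 1)) =
          min (X (r + 1 + 1 + (b + 1)) (r + 1 + 1)) (omega (N + 1) X (r + 1 + (b + 1 - 1)) (r + 1))
        simp only [Nat.add_sub_cancel]
        rw [show r + 1 + (b + 1) - 1 = r + 1 + b by omega, show r + 1 + (b + 1) + 1 = r + 1 + 1 + (b + 1) by omega]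
  obtain ⟨p1, p2⟩ := promo N (col X) (col (omega (N + 1) X)) (fun b => col X 0 (b + 1)) (by
    intro b hb
    have := hk 0 b (by omega)
    rw [if_pos rfl] at this
    rw [this, max_self]) (by
    intro r b hb
    have := hk (r + 1) b (by omega)
    rw [if_neg (by omega)] at this
    rw [this]
    simp only [Nat.add_sub_cancel])
  rw [cc_succ]
  rcases lt_or_eq_of_le hb with h | h
  · rw [p1 b h, stepF_mid _ _ (show b + 1 < 1 + N by omega), max_self]
  · subst h
    rw [p2, stepF_last _ _ (show b + 1 = 1 + b by omega), max_self]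

/-- the diagonal of the Schutzenberger involution -/
theorem schutz_diag (N : ℕ) : ∀ (X : ℕ → ℕ → ℤ) (b : ℕ), b ≤ N →
    schutz (N + 1) X (N + 1 - b) (N + 1 - b) = cc N 1 (col X) b := by
  induction N with
  | zero =>
    intro X b hb
    obtain rfl : b = 0 := by omega
    rfl
  | succ N ih =>
    intro X b hb
    rcases b with _ | b
    · show omegas (N + 1) X (N + 1 + 1 - 0) (N + 1 + 1 - 0) = _
      rw [omegas_above _ _ _ _ (by omega)]
      clear ih hb
      have : ∀ k (x : Arr), cc k 1 x 0 = x k 0 := by
        intro k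
        induction k with
        | zero => intro x; rfl
        | succ k ih =>
          intro x
          rw [cc_succ, stepF_zero, ih]
          rfl
      rw [this]
      rfl
    · have h := ih (omega (N + 1) X) b (by omega)
      have e : schutz (N + 1 + 1) X = schutz (N + 1) (omega (N + 1) X) := rfl
      rw [e, show N + 1 + 1 - (b + 1) = N + 1 - b by omega, h, cc_promo N X b (by omega)]

end Pool.Agent.R103.Gog
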